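import Pool.Agent.H12.QC.Targets

/-!
# SGOOD: good sets of places exist
-/

set_option autoImplicit false

open NumberField IsDedekindDomain Pool.Agent.H32.QC Pool.Agent.H23.QCF Pool.Agent.H12.QC
open scoped nonZeroDivisors

namespace Pool.Agent.H62.QC

variable {K : Type} [Field K] [NumberField K]

open Classical in
/-- The exponent of `v` in the ideal `I`. -/
noncomputable def ex (v : FPl K) (I : Ideal (𝓞 K)) : ℕ :=
  (Associates.mk v.asIdeal).count (Associates.mk I).factors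

theorem ex_mul (v : FPl K) {I J : Ideal (𝓞 K)} (hI : I ≠ 0) (hJ : J ≠ 0) :
    ex v (I * J) = ex v I + ex v J := by
  classical
  unfold ex
  rw [← Associates.mk_mul_mk, Associates.count_mul (Associates.mk_ne_zero.2 hI)
    (Associates.mk_ne_zero.2 hJ) (Associates.irreducible_mk.2 v.irreducible)]

theorem ex_self (v : FPl K) : ex v v.asIdeal = 1 := by
  classical
  unfold ex
  exact Associates.count_self (Associates.irreducible_mk.2 v.irreducible)

theorem ex_ne (v v' : FPl K) (h : v' ≠ v) : ex v' v.asIdeal = 0 := by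
  classical
  unfold ex
  refine Associates.count_eq_zero_of_ne (Associates.irreducible_mk.2 v'.irreducible)
    (Associates.irreducible_mk.2 v.irreducible) fun h1 => h ?_
  refine HeightOneSpectrum.ext ?_
  rwa [Associates.mk_eq_mk_iff_associated, associated_iff_eq] at h1

theorem ex_zero (v : FPl K) {I : Ideal (𝓞 K)} (hI : I ≠ 0) (h : ¬ v.asIdeal ∣ I) : ex v I = 0 := by
  classical
  unfold ex
  by_contra hcon
  exact h ((Associates.count_ne_zero_iff_dvd hI v.irreducible).1 hcon)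

theorem val_ex (v : FPl K) (x : 𝓞 K) (hx : x ≠ 0) :
    v.valuation K (algebraMap (𝓞 K) K x) = WithZero.exp (-(ex v (Ideal.span {x}) : ℤ)) := by
  classical
  rw [HeightOneSpectrum.valuation_of_algebraMap, HeightOneSpectrum.intValuation_if_neg _ hx]
  unfold ex
  rfl

/-- SGOOD -/
theorem pf_SGOOD : T_GOOD := by
  classical
  intro K _ _ A hA
  choose I hI using ClassGroup.mk0_surjective (R := 𝓞 K)
  have hI0 : ∀ c, (I c : Ideal (𝓞 K)) ≠ 0 := fun c => nonZeroDivisors.coe_ne_zero (I c)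
  let S : Set (FPl K) := A ∪ ({v | v.asIdeal ∣ Ideal.span {(2 : 𝓞 K)}} ∪
    ⋃ c : ClassGroup (𝓞 K), {v | v.asIdeal ∣ (I c : Ideal (𝓞 K))})
  have h2 : Ideal.span {(2 : 𝓞 K)} ≠ 0 := by
    rw [Ne, Ideal.zero_eq_bot, Ideal.span_singleton_eq_bot]
    exact two_ne_zero
  refine ⟨S, Set.subset_union_left, ?_, ?_, ?_⟩
  · exact hA.union ((Ideal.finite_factors h2).union
      (Set.finite_iUnion fun c => Ideal.finite_factors (hI0 c)))
  · intro v hv
    have h3 : ¬ v.asIdeal ∣ Ideal.span {(2 : 𝓞 K)} := fun h => hv (Or.inr (Or.inl h))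
    have h4 := val_ex v (2 : 𝓞 K) two_ne_zero
    rw [ex_zero v h2 h3, map_ofNat, Nat.cast_zero, neg_zero, WithZero.exp_zero] at h4
    exact h4
  · intro v hv
    have hvI : ∀ v' : FPl K, v' ∉ S → ∀ c, ¬ v'.asIdeal ∣ (I c : Ideal (𝓞 K)) :=
      fun v' hv' c h => hv' (Or.inr (Or.inr (Set.mem_iUnion.2 ⟨c, h⟩)))
    let J : (Ideal (𝓞 K))⁰ := ⟨v.asIdeal, mem_nonZeroDivisors_iff_ne_zero.2 v.ne_bot⟩
    have h5 : ClassGroup.mk0 J = ClassGroup.mk0 (I (ClassGroup.mk0 J)) := (hI _).symm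
    obtain ⟨x, y, hx, hy, hxy⟩ := ClassGroup.mk0_eq_mk0_iff.1 h5
    have hx' : Ideal.span {x} ≠ 0 := by
      rw [Ne, Ideal.zero_eq_bot, Ideal.span_singleton_eq_bot]
      exact hx
    have hy' : Ideal.span {y} ≠ 0 := by
      rw [Ne, Ideal.zero_eq_bot, Ideal.span_singleton_eq_bot]
      exact hy
    have hkx : algebraMap (𝓞 K) K x ≠ 0 := by
      rw [Ne, FaithfulSMul.algebraMap_eq_zero_iff]
      exact hx
    have hky : algebraMap (𝓞 K) K y ≠ 0 := by
      rw [Ne, FaithfulSMul.algebraMap_eq_zero_iff]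
      exact hy
    have hval : ∀ v' : FPl K, v' ∉ S → v'.valuation K (algebraMap (𝓞 K) K y / algebraMap (𝓞 K) K x) =
        WithZero.exp (-(ex v' v.asIdeal : ℤ)) := by
      intro v' hv'
      rw [map_div₀, val_ex v' x hx, val_ex v' y hy, ← WithZero.exp_sub]
      congr 1
      have h6 : ex v' (Ideal.span {x} * v.asIdeal) =
          ex v' (Ideal.span {y} * (I (ClassGroup.mk0 J) : Ideal (𝓞 K))) := by
        rw [← hxy]
      rw [ex_mul v' hx' v.ne_bot, ex_mul v' hy' (hI0 _), ex_zero v' (hI0 _) (hvI v' hv' _)] at h6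
      omega
    refine ⟨Units.mk0 _ (div_ne_zero hky hkx), ?_, ?_⟩
    · rw [Units.val_mk0, hval v hv, ex_self]
      rfl
    · intro v' hv' hne
      rw [Units.val_mk0, hval v' hv', ex_ne v v' hne]
      simp

end Pool.Agent.H62.QC
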