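import Pool.Agent.H12.QC.Targets
import Pool.Agent.H12.QC.I1
import Pool.Agent.H12.QC.WB
import Pool.Agent.H23.QCF.Lib

/-!
# SP2: two places above a place where the radicand is a square
-/

set_option autoImplicit false

open NumberField IsDedekindDomain Pool.Agent.H32.QC Pool.Agent.H23.QCF Pool.Agent.H12.QC

namespace Pool.Agent.H62.QC

/-- SP2 -/
theorem pf_SP2 (hT : T_TRANS) (hS : T_SIG) : T_SP2 := by
  intro K E _ _ _ _ _ t s hq v hv
  obtain ⟨w, hw⟩ := over_exists E v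
  obtain ⟨σ, hσs, -⟩ := hS K E t s hq
  obtain ⟨w', hw', hval⟩ := (hT K E t s hq σ hσs).1 w
  refine ⟨w, w', ?_, hw, hw'.trans hw⟩
  rintro rfl
  subst hw
  obtain ⟨f, hfc, hf⟩ := exists_ringHom (F := K) w
  obtain ⟨r, hr⟩ : IsSquare (ic (w.under (𝓞 K)) t) := hv
  have ht0 : t ≠ 0 := by
    rintro rfl
    exact hq.nsq ⟨0, by simp⟩
  have hs0 : s ≠ 0 := by
    rintro rfl
    have := hq.sq
    rw [zero_pow two_ne_zero] at this
    exact ht0 ((map_eq_zero _).1 this.symm)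
  have h1 : f r * f r = ic w s * ic w s := by
    rw [← map_mul, ← hr, hf, ← hq.sq, ← map_mul, sq]
  -- choose the sign
  obtain ⟨r, hr⟩ : ∃ r : (w.under (𝓞 K)).adicCompletion K, f r = ic w s := by
    rcases mul_self_eq_mul_self_iff.1 h1 with h | h
    · exact ⟨r, h⟩
    · exact ⟨-r, by rw [map_neg, h, neg_neg]⟩
  have hc0 : 0 < ‖ic w (2 * s)‖ / 2 := by
    have : ic w (2 * s) ≠ 0 := by
      rw [Ne, map_eq_zero]
      exact mul_ne_zero two_ne_zero hs0
    positivity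
  obtain ⟨x, hx⟩ : ∃ x : K, ‖f (ic (w.under (𝓞 K)) x) - f r‖ < ‖ic w (2 * s)‖ / 2 := by
    have h2 : {z : (w.under (𝓞 K)).adicCompletion K | ‖f z - f r‖ < ‖ic w (2 * s)‖ / 2} ∈ nhds r := by
      have h3 : Filter.Tendsto (fun z => ‖f z - f r‖) (nhds r) (nhds ‖f r - f r‖) :=
        ((hfc.tendsto r).sub_const _).norm
      rw [sub_self, norm_zero] at h3
      exact h3.eventually_lt_const hc0
    obtain ⟨x, hx⟩ := (HeightOneSpectrum.denseRange_algebraMap K (w.under (𝓞 K))).exists_mem_open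
      isOpen_interior ⟨r, mem_interior_iff_mem_nhds.2 h2⟩
    have h3 : ic (w.under (𝓞 K)) x ∈ {z : (w.under (𝓞 K)).adicCompletion K |
        ‖f z - f r‖ < ‖ic w (2 * s)‖ / 2} := interior_subset hx
    exact ⟨x, h3⟩
  rw [hf, hr, ← map_sub] at hx
  have hnorm : ∀ y : E, ‖ic w (σ y)‖ = ‖ic w y‖ := by
    intro y
    rw [norm_ic, norm_ic]
    rw [HeightOneSpectrum.adicAbv_def, HeightOneSpectrum.adicAbv_def, hval y]
  have h4 : ‖ic w (algebraMap K E x + s)‖ < ‖ic w (2 * s)‖ / 2 := by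
    rw [← hnorm, map_add, AlgEquiv.commutes, hσs, ← sub_eq_add_neg]
    exact hx
  have h5 : ic w (2 * s) = ic w (algebraMap K E x + s) - ic w (algebraMap K E x - s) := by
    rw [← map_sub]
    congr 1
    ring
  have h6 := norm_sub_le (ic w (algebraMap K E x + s)) (ic w (algebraMap K E x - s))
  rw [← h5] at h6
  linarith

end Pool.Agent.H62.QC
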