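import Mathlib
import Pool.Agent.H95.QC.Targets2
import Pool.Agent.H95.QC.Chain

/-!
# Module D3: fourth moments on the good events
-/

open MeasureTheory ProbabilityTheory Filter Topology
open scoped ENNReal NNReal BigOperators
open Pool.Agent.H95 Pool.Agent.H95.QC

namespace Pool.Agent.H62.QC

lemma nrm4_nonneg {M : ℕ} (x : Tor M) : 0 ≤ nrm4 x := by
  unfold nrm4
  positivity

/-- one step of the recursion for the fourth moments -/
lemma step_D3 (hP3 : TargetP3) (M : ℕ) [NeZero M] {Λ N K : ℕ} {n : ℕ → ℕ} {ν : Measure ℝ≥0}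
    {s θ : ℝ} (hΛ : 1 ≤ Λ) (hg : Grid Λ N K n) (hW : Wt ν s) (hθ : 0 < θ) {i : ℕ} (hi : i < K) :
    ∫⁻ w in {w | Good M n θ (i + 1) w}, ENNReal.ofReal (∑ x, mu M (n (i + 1)) w x * nrm4 x)
      ∂(env (Tor M) ν) ≤
    ENNReal.ofReal (θ⁻¹ * 2) * (∫⁻ w in {w | Good M n θ i w},
      ENNReal.ofReal (∑ x, mu M (n i) w x * nrm4 x) ∂(env (Tor M) ν)) +
      ENNReal.ofReal (θ⁻¹ * (24 * (n (i + 1) : ℝ) ^ 2)) := by
  have hprob := hW.prob
  have : IsProbabilityMeasure (env (Tor M) ν) := by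
    unfold env
    infer_instance
  set T := n (i + 1) - n i with hT
  have hni := hg.mono_succ hΛ hi
  have hnT : n (i + 1) = n i + T := by omega
  -- pointwise bound on the good event
  have h1 : ∀ w ∈ {w | Good M n θ (i + 1) w},
      ENNReal.ofReal (∑ x, mu M (n (i + 1)) w x * nrm4 x) ≤
      (fun w w' => ENNReal.ofReal (θ⁻¹ * ∑ x, evo (st M) 1 T w' (mu M (n i) w) x * nrm4 x)) w
        (shift (n i) w) := by
    intro w hw
    have hw' : Good M n θ (i + 1) w := hw
    rw [Good_succ] at hw'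
    have hpos := hw'.1.pos M hg.zero hθ
    have hsplit := WW_split M (n i) T w hpos.ne'
    rw [← hnT] at hsplit
    have hZ : θ ≤ Z (st M) 1 T (shift (n i) w) (mu M (n i) w) := by
      have h2 := hw'.2
      rw [hsplit, mul_comm θ] at h2
      exact le_of_mul_le_mul_left h2 hpos
    refine ENNReal.ofReal_le_ofReal ?_
    have hmu := mu_split M (n i) T w hpos.ne'
    rw [← hnT] at hmu
    rw [hmu]
    simp only [Pi.smul_apply, smul_eq_mul, mul_assoc]
    rw [← Finset.mul_sum]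
    refine mul_le_mul_of_nonneg_right (inv_anti₀ hθ hZ) ?_
    refine Finset.sum_nonneg fun x _ => mul_nonneg ?_ (nrm4_nonneg x)
    exact evo_nonneg _ _ one_nonneg' _ _ (mu_nonneg M (n i) w) x
  have hA : MeasurableSet {w | Good M n θ i w} := measurableSet_Good M n θ i
  have hH : Measurable (Function.uncurry (fun (w w' : ℕ → Tor M → ℝ≥0) =>
      ENNReal.ofReal (θ⁻¹ * ∑ x, evo (st M) 1 T w' (mu M (n i) w) x * nrm4 x))) := by
    have h2 : Measurable (fun p : (ℕ → Tor M → ℝ≥0) × (ℕ → Tor M → ℝ≥0) =>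
        evo (st M) 1 T p.2 (mu M (n i) p.1)) :=
      (measurable_evo (st M) 1 T).comp (measurable_snd.prodMk
        ((measurable_mu M (n i)).comp measurable_fst))
    refine ENNReal.measurable_ofReal.comp ?_
    refine Measurable.const_mul (Finset.measurable_sum _ fun x _ => ?_) _
    exact ((measurable_pi_apply x).comp h2).mul_const _
  have hdep : ∀ w', DepLt (n i) (fun w : ℕ → Tor M → ℝ≥0 =>
      ENNReal.ofReal (θ⁻¹ * ∑ x, evo (st M) 1 T w' (mu M (n i) w) x * nrm4 x)) := by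
    intro w' x x' h
    have := mu_depLt M (n i) x x' h
    simp only [this]
  have hB : ∀ w ∈ {w | Good M n θ i w}, ∫⁻ w',
      (fun w w' => ENNReal.ofReal (θ⁻¹ * ∑ x, evo (st M) 1 T w' (mu M (n i) w) x * nrm4 x)) w w'
        ∂(env (Tor M) ν) ≤ ENNReal.ofReal (θ⁻¹ * 2) * ENNReal.ofReal
          (∑ x, mu M (n i) w x * nrm4 x) + ENNReal.ofReal (θ⁻¹ * (24 * (n (i + 1) : ℝ) ^ 2)) := by
    intro w hw
    have hpos := Good.pos M hg.zero hθ (show Good M n θ i w from hw)
    have h3 := hP3 M T ν s (mu M (n i) w) hW (mu_nonneg M (n i) w) (sum_mu M (n i) w hpos.ne')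
    have hθi : 0 ≤ θ⁻¹ := by positivity
    have h4 : ∀ w' : ℕ → Tor M → ℝ≥0, ENNReal.ofReal
        (θ⁻¹ * ∑ x, evo (st M) 1 T w' (mu M (n i) w) x * nrm4 x) =
        ENNReal.ofReal θ⁻¹ * ENNReal.ofReal (∑ x, evo (st M) 1 T w' (mu M (n i) w) x * nrm4 x) :=
      fun w' => ENNReal.ofReal_mul hθi
    simp only [h4]
    have hmeas : Measurable (fun w' : ℕ → Tor M → ℝ≥0 => ENNReal.ofReal
        (∑ x, evo (st M) 1 T w' (mu M (n i) w) x * nrm4 x)) := by
      refine ENNReal.measurable_ofReal.comp (Finset.measurable_sum _ fun x _ => ?_)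
      exact ((measurable_pi_apply x).comp (measurable_evo_left (st M) 1 T _)).mul_const _
    rw [lintegral_const_mul _ hmeas]
    have hS : 0 ≤ ∑ x, mu M (n i) w x * nrm4 x :=
      Finset.sum_nonneg fun x _ => mul_nonneg (mu_nonneg M (n i) w x) (nrm4_nonneg x)
    calc ENNReal.ofReal θ⁻¹ * ∫⁻ w', ENNReal.ofReal
          (∑ x, evo (st M) 1 T w' (mu M (n i) w) x * nrm4 x) ∂(env (Tor M) ν)
        ≤ ENNReal.ofReal θ⁻¹ * ENNReal.ofReal
          (2 * ∑ x, mu M (n i) w x * nrm4 x + 24 * (T : ℝ) ^ 2) := mul_le_mul_right h3 _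
      _ = ENNReal.ofReal (θ⁻¹ * 2 * (∑ x, mu M (n i) w x * nrm4 x) + θ⁻¹ * (24 * (T : ℝ) ^ 2)) := by
          rw [← ENNReal.ofReal_mul hθi]
          congr 1
          ring
      _ = ENNReal.ofReal (θ⁻¹ * 2) * ENNReal.ofReal (∑ x, mu M (n i) w x * nrm4 x) +
          ENNReal.ofReal (θ⁻¹ * (24 * (T : ℝ) ^ 2)) := by
          rw [ENNReal.ofReal_add (by positivity) (by positivity), ENNReal.ofReal_mul (by positivity)]
      _ ≤ _ := by
          refine add_le_add le_rfl (ENNReal.ofReal_le_ofReal ?_)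
          have hTn : (T : ℝ) ≤ (n (i + 1) : ℝ) := by
            have : T ≤ n (i + 1) := by omega
            exact_mod_cast this
          have : (T : ℝ) ^ 2 ≤ (n (i + 1) : ℝ) ^ 2 := pow_le_pow_left₀ (by positivity) hTn 2
          exact mul_le_mul_of_nonneg_left (by linarith) hθi
  have hsub : {w : ℕ → Tor M → ℝ≥0 | Good M n θ (i + 1) w} ⊆ {w | Good M n θ i w} :=
    fun w hw => Good.mono M hw (Nat.le_succ i)
  calc ∫⁻ w in {w | Good M n θ (i + 1) w}, ENNReal.ofReal (∑ x, mu M (n (i + 1)) w x * nrm4 x)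
        ∂(env (Tor M) ν)
      ≤ ∫⁻ w in {w | Good M n θ (i + 1) w},
        (fun w w' => ENNReal.ofReal (θ⁻¹ * ∑ x, evo (st M) 1 T w' (mu M (n i) w) x * nrm4 x)) w
        (shift (n i) w) ∂(env (Tor M) ν) :=
        setLIntegral_mono' (measurableSet_Good M n θ (i + 1)) h1
    _ ≤ ∫⁻ w in {w | Good M n θ i w},
        (fun w w' => ENNReal.ofReal (θ⁻¹ * ∑ x, evo (st M) 1 T w' (mu M (n i) w) x * nrm4 x)) w
        (shift (n i) w) ∂(env (Tor M) ν) := lintegral_mono_set hsub
    _ ≤ ∫⁻ w in {w | Good M n θ i w}, (ENNReal.ofReal (θ⁻¹ * 2) * ENNReal.ofReal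
          (∑ x, mu M (n i) w x * nrm4 x) + ENNReal.ofReal (θ⁻¹ * (24 * (n (i + 1) : ℝ) ^ 2)))
          ∂(env (Tor M) ν) :=
        setLIntegral_split_le hA (Good_depLt M (fun j hj => hg.mono hΛ hj hi.le) θ) hH hdep hB
    _ ≤ _ := by
        have hm : Measurable (fun w : ℕ → Tor M → ℝ≥0 => ENNReal.ofReal
            (∑ x, mu M (n i) w x * nrm4 x)) := by
          refine ENNReal.measurable_ofReal.comp (Finset.measurable_sum _ fun x _ => ?_)
          exact ((measurable_pi_apply x).comp (measurable_mu M (n i))).mul_const _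
        rw [lintegral_add_right _ measurable_const, lintegral_const_mul _ hm]
        refine add_le_add le_rfl ?_
        rw [setLIntegral_const]
        exact mul_le_of_le_one_right zero_le prob_le_one

/-- Module D3 -/
theorem targetD3 (hP3 : TargetP3) : TargetD3 := by
  intro Λ θ hΛ hθ hθ1 hcon
  refine ⟨32 / θ, by positivity, ?_⟩
  intro M N K _ n ν s hg hW
  have key : ∀ i, i < K → ∫⁻ w in {w | Good M n θ i w},
      ENNReal.ofReal (∑ x, mu M (n i) w x * nrm4 x) ∂(env (Tor M) ν) ≤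
      ENNReal.ofReal (32 / θ * (n i : ℝ) ^ 2) := by
    intro i
    induction i with
    | zero =>
      intro _
      have h0 : ∀ w : ℕ → Tor M → ℝ≥0, ∑ x, mu M (n 0) w x * nrm4 x = 0 := by
        intro w
        rw [hg.zero]
        refine Finset.sum_eq_zero fun x _ => ?_
        unfold mu ff
        rw [WW_zero]
        simp only [evo, Pi.smul_apply, smul_eq_mul, inv_one, one_mul, dl, Pi.single_apply]
        split_ifs with h
        · subst h
          simp [nrm4]
        · simp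
      simp [h0]
    | succ i ih =>
      intro hi
      refine (step_D3 hP3 M (by omega) hg hW hθ (by omega)).trans ?_
      refine (add_le_add (mul_le_mul_right (ih (by omega)) _) le_rfl).trans ?_
      rw [← ENNReal.ofReal_mul (by positivity), ← ENNReal.ofReal_add (by positivity)
        (by positivity)]
      refine ENNReal.ofReal_le_ofReal ?_
      rcases Nat.eq_zero_or_pos i with h0 | h0
      · subst h0
        rw [hg.zero]
        have : (0 : ℝ) ≤ (n (0 + 1) : ℝ) ^ 2 := by positivity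
        have hθi : (0 : ℝ) < θ⁻¹ := by positivity
        rw [div_eq_mul_inv]
        push_cast
        nlinarith
      · have hr := (hg.ratio i h0 (by omega)).1
        have hr' : (Λ : ℝ) * n i ≤ n (i + 1) := by exact_mod_cast hr
        have h5 : ((Λ : ℝ) * n i) ^ 2 ≤ (n (i + 1) : ℝ) ^ 2 :=
          pow_le_pow_left₀ (by positivity) hr' 2
        rw [mul_pow] at h5
        have hni : (0 : ℝ) ≤ (n i : ℝ) ^ 2 := by positivity
        have h6 : 8 * (n i : ℝ) ^ 2 ≤ θ * (n (i + 1) : ℝ) ^ 2 := by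
          have h7 : 8 * (n i : ℝ) ^ 2 ≤ θ * (Λ : ℝ) ^ 2 * (n i : ℝ) ^ 2 :=
            mul_le_mul_of_nonneg_right hcon hni
          have h8 : θ * ((Λ : ℝ) ^ 2 * (n i : ℝ) ^ 2) ≤ θ * (n (i + 1) : ℝ) ^ 2 :=
            mul_le_mul_of_nonneg_left h5 hθ.le
          linarith
        have hθi : (0 : ℝ) < θ⁻¹ := by positivity
        have h9 : θ⁻¹ * 2 * (32 / θ * (n i : ℝ) ^ 2) ≤ θ⁻¹ * (8 * (n (i + 1) : ℝ) ^ 2) := by
          have h10 : θ⁻¹ * 2 * (32 / θ * (n i : ℝ) ^ 2) =
              θ⁻¹ * (8 * (θ⁻¹ * (8 * (n i : ℝ) ^ 2))) := by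
            rw [div_eq_mul_inv]; ring
          rw [h10]
          refine mul_le_mul_of_nonneg_left (mul_le_mul_of_nonneg_left ?_ (by norm_num)) hθi.le
          rw [inv_mul_le_iff₀ hθ]
          exact h6
        have h11 : 32 / θ * (n (i + 1) : ℝ) ^ 2 = θ⁻¹ * (8 * (n (i + 1) : ℝ) ^ 2) +
            θ⁻¹ * (24 * (n (i + 1) : ℝ) ^ 2) := by
          rw [div_eq_mul_inv]; ring
        rw [h11]
        linarith
  intro i _ hi
  exact key i hi

end Pool.Agent.H62.QC
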