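import Mathlib
import Pool.Agent.H95.QC.Targets

/-!
# Lindeberg's theorem (module L of the quasi-critical polymer project)
-/

open MeasureTheory ProbabilityTheory Filter Topology

namespace Pool.Agent.H62.QC

/-- Taylor remainder of `exp (i y)` -/
lemma rem_le (y : ℝ) : ‖Complex.exp (y * Complex.I) - 1 - y * Complex.I + (y : ℂ) ^ 2 / 2‖ ≤
      4 * y ^ 2 ∧
    ‖Complex.exp (y * Complex.I) - 1 - y * Complex.I + (y : ℂ) ^ 2 / 2‖ ≤ 4 * |y| ^ 3 := by
  rcases le_total |y| 1 with hy | hy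
  · have h1 : ‖(y : ℂ) * Complex.I‖ = |y| := by simp
    have h := Complex.exp_bound (x := (y : ℂ) * Complex.I) (by rw [h1]; exact hy)
      (n := 3) (by norm_num)
    rw [h1] at h
    have e : Complex.exp (y * Complex.I) - 1 - y * Complex.I + (y : ℂ) ^ 2 / 2 =
        Complex.exp (y * Complex.I) - ∑ m ∈ Finset.range 3, ((y : ℂ) * Complex.I) ^ m /
          (m.factorial : ℂ) := by
      simp only [Finset.sum_range_succ, Finset.sum_range_zero, pow_zero, pow_one, mul_pow,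
        Complex.I_sq, Nat.factorial]
      push_cast
      ring
    rw [e]
    have h0 : 0 ≤ |y| ^ 3 := by positivity
    have h3 : |y| ^ 3 * ((Nat.succ 3 : ℝ) * ((Nat.factorial 3 : ℝ) * (3 : ℕ))⁻¹) ≤ |y| ^ 3 := by
      have : ((Nat.succ 3 : ℝ) * ((Nat.factorial 3 : ℝ) * (3 : ℕ))⁻¹) ≤ 1 := by
        norm_num [Nat.factorial]
      nlinarith
    have h2 : |y| ^ 3 ≤ y ^ 2 := by
      have : |y| ^ 3 = y ^ 2 * |y| := by rw [← sq_abs y]; ring
      rw [this]
      nlinarith [sq_nonneg y]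
    have hy2 := sq_nonneg y
    constructor <;> nlinarith [h]
  · have hy2 : |y| ≤ y ^ 2 := by rw [← sq_abs]; nlinarith [abs_nonneg y]
    have hy3 : y ^ 2 ≤ |y| ^ 3 := by
      have : |y| ^ 3 = y ^ 2 * |y| := by rw [← sq_abs y]; ring
      rw [this]
      nlinarith [sq_nonneg y]
    have hb : ‖Complex.exp (y * Complex.I) - 1 - y * Complex.I + (y : ℂ) ^ 2 / 2‖ ≤
        1 + 1 + |y| + y ^ 2 / 2 := by
      refine (norm_add_le _ _).trans ?_
      refine add_le_add ((norm_sub_le _ _).trans (add_le_add ((norm_sub_le _ _).trans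
        (add_le_add ?_ ?_)) ?_)) ?_
      · rw [Complex.norm_exp_ofReal_mul_I]
      · simp
      · simp
      · simp
    constructor <;> nlinarith

/-- comparison of products of complex numbers in the unit disc -/
lemma norm_prod_sub_prod {ι : Type*} (s : Finset ι) (a b : ι → ℂ) (ha : ∀ i ∈ s, ‖a i‖ ≤ 1)
    (hb : ∀ i ∈ s, ‖b i‖ ≤ 1) : ‖∏ i ∈ s, a i - ∏ i ∈ s, b i‖ ≤ ∑ i ∈ s, ‖a i - b i‖ := by
  classical
  induction s using Finset.induction_on with
  | empty => simp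
  | insert i s hi ih =>
    rw [Finset.prod_insert hi, Finset.prod_insert hi, Finset.sum_insert hi]
    have e : a i * ∏ j ∈ s, a j - b i * ∏ j ∈ s, b j =
        (a i - b i) * ∏ j ∈ s, a j + b i * (∏ j ∈ s, a j - ∏ j ∈ s, b j) := by ring
    rw [e]
    have h1 : ‖∏ j ∈ s, a j‖ ≤ 1 := by
      rw [norm_prod]
      exact Finset.prod_le_one (fun _ _ => norm_nonneg _)
        (fun j hj => ha j (Finset.mem_insert_of_mem hj))
    have h2 := ih (fun j hj => ha j (Finset.mem_insert_of_mem hj))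
      (fun j hj => hb j (Finset.mem_insert_of_mem hj))
    have h3 := hb i (Finset.mem_insert_self i s)
    refine (norm_add_le _ _).trans ?_
    rw [norm_mul, norm_mul]
    refine add_le_add ?_ ?_
    · exact mul_le_of_le_one_right (norm_nonneg _) h1
    · refine le_trans ?_ h2
      exact mul_le_of_le_one_left (norm_nonneg _) h3

section

universe u
variable {Ω : Type u} [MeasurableSpace Ω] {P : Measure Ω} [IsProbabilityMeasure P]

/-- characteristic function of a centred square integrable variable -/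
lemma charFun_bound {X : Ω → ℝ} (hm : Measurable X) (h2 : MemLp X 2 P) (h0 : ∫ ω, X ω ∂P = 0)
    (t ε : ℝ) (hε : 0 < ε) :
    ‖charFun (P.map X) t - (1 - (t : ℂ) ^ 2 * ((∫ ω, X ω ^ 2 ∂P : ℝ) : ℂ) / 2)‖ ≤
      4 * |t| ^ 3 * ε * ∫ ω, X ω ^ 2 ∂P + 4 * t ^ 2 * ∫ ω in {ω | ε < |X ω|}, X ω ^ 2 ∂P := by
  have hI1 : Integrable X P := h2.integrable (by norm_num)
  have hI2 : Integrable (fun ω => X ω ^ 2) P := h2.integrable_sq
  have hIe : Integrable (fun ω => Complex.exp (((t * X ω : ℝ) : ℂ) * Complex.I)) P := by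
    refine Integrable.mono' (integrable_const (1 : ℝ)) ?_ ?_
    · exact (by fun_prop : Measurable fun ω => Complex.exp (((t * X ω : ℝ) : ℂ) *
        Complex.I)).aestronglyMeasurable
    · refine Eventually.of_forall fun ω => ?_
      rw [Complex.norm_exp_ofReal_mul_I]
  have hc : charFun (P.map X) t = ∫ ω, Complex.exp (((t * X ω : ℝ) : ℂ) * Complex.I) ∂P := by
    rw [charFun_apply_real, integral_map hm.aemeasurable]
    · refine integral_congr_ae (Eventually.of_forall fun ω => ?_)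
      simp
    · exact (by fun_prop : Measurable fun x : ℝ => Complex.exp ((t : ℂ) * x *
        Complex.I)).aestronglyMeasurable
  have hmeas : MeasurableSet {ω | ε < |X ω|} := measurableSet_lt measurable_const (by fun_prop)
  have hIX : Integrable (fun ω => ((t * X ω : ℝ) : ℂ) * Complex.I) P :=
    ((hI1.const_mul t).ofReal (𝕜 := ℂ)).mul_const _
  have hIX2 : Integrable (fun ω => ((t * X ω : ℝ) : ℂ) ^ 2 / 2) P := by
    have : (fun ω => ((t * X ω : ℝ) : ℂ) ^ 2 / 2) = fun ω => ((t ^ 2 * X ω ^ 2 / 2 : ℝ) : ℂ) := by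
      funext ω
      push_cast
      ring
    rw [this]
    exact (((hI2.const_mul (t ^ 2)).div_const 2)).ofReal (𝕜 := ℂ)
  have key : charFun (P.map X) t - (1 - (t : ℂ) ^ 2 * ((∫ ω, X ω ^ 2 ∂P : ℝ) : ℂ) / 2) =
      ∫ ω, (Complex.exp (((t * X ω : ℝ) : ℂ) * Complex.I) - 1 - ((t * X ω : ℝ) : ℂ) * Complex.I
        + ((t * X ω : ℝ) : ℂ) ^ 2 / 2) ∂P := by
    have hA : Integrable (fun ω => Complex.exp (((t * X ω : ℝ) : ℂ) * Complex.I) - 1) P :=
      hIe.sub (integrable_const _)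
    have hB : Integrable (fun ω => Complex.exp (((t * X ω : ℝ) : ℂ) * Complex.I) - 1 -
        ((t * X ω : ℝ) : ℂ) * Complex.I) P := hA.sub hIX
    rw [integral_add hB hIX2, integral_sub hA hIX, integral_sub hIe (integrable_const _), hc]
    have e1 : ∫ ω, ((t * X ω : ℝ) : ℂ) * Complex.I ∂P = 0 := by
      rw [integral_mul_const, integral_complex_ofReal, integral_const_mul, h0]
      simp
    have e2 : ∫ ω, ((t * X ω : ℝ) : ℂ) ^ 2 / 2 ∂P =
        (t : ℂ) ^ 2 * ((∫ ω, X ω ^ 2 ∂P : ℝ) : ℂ) / 2 := by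
      have : (fun ω => ((t * X ω : ℝ) : ℂ) ^ 2 / 2) =
          fun ω => ((t ^ 2 * X ω ^ 2 / 2 : ℝ) : ℂ) := by
        funext ω
        push_cast
        ring
      rw [this, integral_complex_ofReal, integral_div, integral_const_mul]
      push_cast
      ring
    rw [e1, e2]
    simp
    ring
  rw [key]
  have hdom : ∀ ω, ‖Complex.exp (((t * X ω : ℝ) : ℂ) * Complex.I) - 1 -
      ((t * X ω : ℝ) : ℂ) * Complex.I + ((t * X ω : ℝ) : ℂ) ^ 2 / 2‖ ≤
      4 * |t| ^ 3 * ε * X ω ^ 2 + 4 * t ^ 2 *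
        Set.indicator {ω | ε < |X ω|} (fun ω => X ω ^ 2) ω := by
    intro ω
    by_cases hω : ε < |X ω|
    · rw [Set.indicator_of_mem (by exact hω)]
      refine (rem_le (t * X ω)).1.trans ?_
      have : 0 ≤ 4 * |t| ^ 3 * ε * X ω ^ 2 := by positivity
      nlinarith
    · rw [Set.indicator_of_notMem (by exact hω)]
      refine (rem_le (t * X ω)).2.trans ?_
      have h3 : |t * X ω| ^ 3 = |t| ^ 3 * (X ω ^ 2 * |X ω|) := by
        rw [abs_mul, mul_pow, ← sq_abs (X ω)]; ring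
      rw [h3]
      push Not at hω
      have h4 : X ω ^ 2 * |X ω| ≤ X ω ^ 2 * ε := mul_le_mul_of_nonneg_left hω (sq_nonneg _)
      have h5 : |t| ^ 3 * (X ω ^ 2 * |X ω|) ≤ |t| ^ 3 * (X ω ^ 2 * ε) :=
        mul_le_mul_of_nonneg_left h4 (by positivity)
      nlinarith
  refine (norm_integral_le_of_norm_le ?_ (Eventually.of_forall hdom)).trans ?_
  · exact (hI2.const_mul _).add ((hI2.indicator hmeas).const_mul _)
  · rw [integral_add (hI2.const_mul _) ((hI2.indicator hmeas).const_mul _), integral_const_mul,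
      integral_const_mul, integral_indicator hmeas]

end

/-- `|e^{-x} - (1 - x)| ≤ x^2` for `x ≥ 0` -/
lemma exp_neg_bound (x : ℝ) (hx : 0 ≤ x) : |Real.exp (-x) - (1 - x)| ≤ x ^ 2 := by
  have h1 := Real.add_one_le_exp (-x)
  have h2 : Real.exp (-x) ≤ 1 - x + x ^ 2 := by
    have h3 := Real.add_one_le_exp x
    have h4 : Real.exp (-x) * Real.exp x = 1 := by rw [← Real.exp_add]; simp
    have h5 := Real.exp_pos (-x)
    have h6 : Real.exp (-x) * (1 + x) ≤ 1 := by nlinarith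
    have h7 : 1 ≤ (1 - x + x ^ 2) * (1 + x) := by nlinarith [pow_nonneg hx 3]
    by_contra h8
    push Not at h8
    nlinarith
  rw [abs_le]
  constructor <;> nlinarith

universe u

/-- Lindeberg's theorem -/
theorem targetL : Pool.Agent.H95.QC.TargetL.{u} := by
  intro Ω _ P _ K X hmeas hind hL2 h0 hV hL
  refine ⟨fun n => (Finset.measurable_sum _ fun i _ => hmeas n i).aemeasurable,
    measurable_id.aemeasurable, ?_⟩
  refine ProbabilityMeasure.tendsto_iff_tendsto_charFun.2 fun t => ?_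
  have hcf : ∀ n, charFun (P.map (fun ω => ∑ i ∈ Finset.range (K n), X n i ω)) t =
      ∏ i ∈ Finset.range (K n), charFun (P.map (X n i)) t := by
    intro n
    rw [((hind n).restrict _).charFun_map_fun_finsetSum_eq_prod
      (fun i _ => (hmeas n i).aemeasurable)]
    simp
  simp only [ProbabilityMeasure.coe_mk]
  simp_rw [hcf]
  rw [Measure.map_id, charFun_gaussianReal]
  have hlim : (Complex.exp ((t : ℂ) * ((0 : ℝ) : ℂ) * Complex.I -
      (((1 : NNReal) : ℝ) : ℂ) * (t : ℂ) ^ 2 / 2)) =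
      ((Real.exp (-(t ^ 2 / 2)) : ℝ) : ℂ) := by
    push_cast
    congr 1
    simp
  rw [hlim]
  set v : ℕ → ℕ → ℝ := fun n i => ∫ ω, X n i ω ^ 2 ∂P with hv
  have hv0 : ∀ n i, 0 ≤ v n i := fun n i => integral_nonneg fun ω => sq_nonneg _
  set V : ℕ → ℝ := fun n => ∑ i ∈ Finset.range (K n), v n i with hVdef
  have hVt : Tendsto V atTop (𝓝 1) := hV
  set Lf : ℝ → ℕ → ℝ := fun ε n => ∑ i ∈ Finset.range (K n),
    ∫ ω in {ω | ε < |X n i ω|}, X n i ω ^ 2 ∂P with hLf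
  have hLt : ∀ ε, 0 < ε → Tendsto (Lf ε) atTop (𝓝 0) := hL
  have hl0 : ∀ ε n i, 0 ≤ ∫ ω in {ω | ε < |X n i ω|}, X n i ω ^ 2 ∂P :=
    fun ε n i => integral_nonneg fun ω => sq_nonneg _
  -- variance bound
  have hvb : ∀ ε, 0 < ε → ∀ n, ∀ i ∈ Finset.range (K n), v n i ≤ ε ^ 2 + Lf ε n := by
    intro ε hε n i hi
    have hms : MeasurableSet {ω | ε < |X n i ω|} :=
      measurableSet_lt measurable_const ((hmeas n i).abs)
    have hI := (hL2 n i).integrable_sq
    have h1 : v n i = (∫ ω in {ω | ε < |X n i ω|}, X n i ω ^ 2 ∂P) +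
        ∫ ω in {ω | ε < |X n i ω|}ᶜ, X n i ω ^ 2 ∂P :=
      (integral_add_compl hms hI).symm
    have h2 : ∫ ω in {ω | ε < |X n i ω|}ᶜ, X n i ω ^ 2 ∂P ≤ ε ^ 2 := by
      have h3 : ∫ ω in {ω | ε < |X n i ω|}ᶜ, X n i ω ^ 2 ∂P ≤
          ∫ ω in {ω | ε < |X n i ω|}ᶜ, ε ^ 2 ∂P := by
        refine setIntegral_mono_on hI.integrableOn (integrable_const _) hms.compl ?_
        intro ω hω
        have h4 : |X n i ω| ≤ ε := by simpa using hω
        rw [← sq_abs]
        exact pow_le_pow_left₀ (abs_nonneg _) h4 2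
      refine h3.trans ?_
      rw [setIntegral_const, smul_eq_mul]
      exact mul_le_of_le_one_left (sq_nonneg _) measureReal_le_one
    have h5 : ∫ ω in {ω | ε < |X n i ω|}, X n i ω ^ 2 ∂P ≤ Lf ε n :=
      Finset.single_le_sum (f := fun i => ∫ ω in {ω | ε < |X n i ω|}, X n i ω ^ 2 ∂P)
        (fun j _ => hl0 ε n j) hi
    linarith
  -- main estimate
  have hmain : ∀ ε, 0 < ε → ∀ n,
      ‖∏ i ∈ Finset.range (K n), charFun (P.map (X n i)) t -
        ((Real.exp (-(t ^ 2 / 2) * V n) : ℝ) : ℂ)‖ ≤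
      4 * |t| ^ 3 * ε * V n + 4 * t ^ 2 * Lf ε n +
        (t ^ 2 / 2) ^ 2 * ((ε ^ 2 + Lf ε n) * V n) := by
    intro ε hε n
    have hexp : ((Real.exp (-(t ^ 2 / 2) * V n) : ℝ) : ℂ) =
        ∏ i ∈ Finset.range (K n), ((Real.exp (-(t ^ 2 / 2 * v n i)) : ℝ) : ℂ) := by
      rw [← Complex.ofReal_prod, ← Real.exp_sum]
      congr 2
      rw [hVdef]
      simp only [Finset.mul_sum, neg_mul, Finset.sum_neg_distrib]
    rw [hexp]
    refine (norm_prod_sub_prod _ _ _ ?_ ?_).trans ?_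
    · intro i _
      have : IsProbabilityMeasure (P.map (X n i)) :=
        Measure.isProbabilityMeasure_map (hmeas n i).aemeasurable
      exact norm_charFun_le_one t
    · intro i _
      rw [Complex.norm_real, Real.norm_eq_abs, abs_of_pos (Real.exp_pos _)]
      rw [Real.exp_le_one_iff]
      have := hv0 n i
      have h2 : 0 ≤ t ^ 2 / 2 * v n i := by positivity
      linarith
    · have hterm : ∀ i ∈ Finset.range (K n),
          ‖charFun (P.map (X n i)) t - ((Real.exp (-(t ^ 2 / 2 * v n i)) : ℝ) : ℂ)‖ ≤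
          (4 * |t| ^ 3 * ε * v n i +
            4 * t ^ 2 * ∫ ω in {ω | ε < |X n i ω|}, X n i ω ^ 2 ∂P) +
            (t ^ 2 / 2) ^ 2 * ((ε ^ 2 + Lf ε n) * v n i) := by
        intro i hi
        have h1 := charFun_bound (hmeas n i) (hL2 n i) (h0 n i) t ε hε
        have h2 := exp_neg_bound (t ^ 2 / 2 * v n i) (by have := hv0 n i; positivity)
        have h3 : ‖(1 - (t : ℂ) ^ 2 * ((v n i : ℝ) : ℂ) / 2) -
            ((Real.exp (-(t ^ 2 / 2 * v n i)) : ℝ) : ℂ)‖ ≤ (t ^ 2 / 2 * v n i) ^ 2 := by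
          have e : (1 - (t : ℂ) ^ 2 * ((v n i : ℝ) : ℂ) / 2) -
            ((Real.exp (-(t ^ 2 / 2 * v n i)) : ℝ) : ℂ) =
            (((1 - t ^ 2 / 2 * v n i) - Real.exp (-(t ^ 2 / 2 * v n i)) : ℝ) : ℂ) := by
            push_cast
            ring
          rw [e, Complex.norm_real, Real.norm_eq_abs, abs_sub_comm]
          exact h2
        have h4 : (t ^ 2 / 2 * v n i) ^ 2 ≤ (t ^ 2 / 2) ^ 2 * ((ε ^ 2 + Lf ε n) * v n i) := by
          rw [mul_pow]
          refine mul_le_mul_of_nonneg_left ?_ (sq_nonneg _)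
          rw [sq]
          exact mul_le_mul_of_nonneg_right (hvb ε hε n i hi) (hv0 n i)
        calc ‖charFun (P.map (X n i)) t - ((Real.exp (-(t ^ 2 / 2 * v n i)) : ℝ) : ℂ)‖
            ≤ ‖charFun (P.map (X n i)) t - (1 - (t : ℂ) ^ 2 * ((v n i : ℝ) : ℂ) / 2)‖ +
              ‖(1 - (t : ℂ) ^ 2 * ((v n i : ℝ) : ℂ) / 2) -
                ((Real.exp (-(t ^ 2 / 2 * v n i)) : ℝ) : ℂ)‖ := by
              refine le_trans (le_of_eq ?_) (norm_add_le _ _)
              congr 1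
              ring
          _ ≤ _ := add_le_add h1 (h3.trans h4)
      refine (Finset.sum_le_sum hterm).trans (le_of_eq ?_)
      rw [Finset.sum_add_distrib, Finset.sum_add_distrib, ← Finset.mul_sum, ← Finset.mul_sum,
        ← Finset.mul_sum, ← Finset.mul_sum]
  -- conclusion
  rw [Metric.tendsto_atTop]
  intro δ hδ
  have hexpt : Tendsto (fun n => Real.exp (-(t ^ 2 / 2) * V n)) atTop
      (𝓝 (Real.exp (-(t ^ 2 / 2)))) := by
    have : Tendsto (fun n => -(t ^ 2 / 2) * V n) atTop (𝓝 (-(t ^ 2 / 2) * 1)) :=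
      hVt.const_mul _
    rw [mul_one] at this
    exact (Real.continuous_exp.tendsto _).comp this
  -- choose ε
  obtain ⟨ε, hε, hε1, hεδ⟩ : ∃ ε : ℝ, 0 < ε ∧ ε ≤ 1 ∧
      (8 * |t| ^ 3 + 2 * (t ^ 2 / 2) ^ 2) * ε < δ / 3 := by
    set c := 8 * |t| ^ 3 + 2 * (t ^ 2 / 2) ^ 2 with hc
    have hc0 : 0 ≤ c := by positivity
    refine ⟨min 1 (δ / 3 / (c + 1)), lt_min one_pos (by positivity), min_le_left _ _, ?_⟩
    have h1 : c * min 1 (δ / 3 / (c + 1)) ≤ c * (δ / 3 / (c + 1)) :=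
      mul_le_mul_of_nonneg_left (min_le_right _ _) hc0
    refine h1.trans_lt ?_
    rw [mul_div_assoc', div_lt_iff₀ (by positivity)]
    nlinarith
  have hV2 : ∀ᶠ n in atTop, V n < 2 := hVt.eventually_lt_const (by norm_num)
  have hLs : ∀ᶠ n in atTop, (4 * t ^ 2 + 2 * (t ^ 2 / 2) ^ 2) * Lf ε n < δ / 3 := by
    have : Tendsto (fun n => (4 * t ^ 2 + 2 * (t ^ 2 / 2) ^ 2) * Lf ε n) atTop (𝓝 0) := by
      simpa using (hLt ε hε).const_mul (4 * t ^ 2 + 2 * (t ^ 2 / 2) ^ 2)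
    exact this.eventually_lt_const (by positivity)
  have hE : ∀ᶠ n in atTop, |Real.exp (-(t ^ 2 / 2) * V n) - Real.exp (-(t ^ 2 / 2))| < δ / 3 := by
    have := (Metric.tendsto_nhds.1 hexpt) (δ / 3) (by positivity)
    simpa [Real.dist_eq] using this
  obtain ⟨N, hN⟩ := eventually_atTop.1 (hV2.and (hLs.and hE))
  refine ⟨N, fun n hn => ?_⟩
  obtain ⟨h1, h2, h3⟩ := hN n hn
  have h4 := hmain ε hε n
  have hVn : 0 ≤ V n := Finset.sum_nonneg fun i _ => hv0 n i
  have hLn : 0 ≤ Lf ε n := Finset.sum_nonneg fun i _ => hl0 ε n i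
  rw [dist_eq_norm]
  have h5 : ‖((Real.exp (-(t ^ 2 / 2) * V n) : ℝ) : ℂ) - ((Real.exp (-(t ^ 2 / 2)) : ℝ) : ℂ)‖
      < δ / 3 := by
    rw [← Complex.ofReal_sub, Complex.norm_real, Real.norm_eq_abs]
    exact h3
  have h6 : 4 * |t| ^ 3 * ε * V n + 4 * t ^ 2 * Lf ε n +
        (t ^ 2 / 2) ^ 2 * ((ε ^ 2 + Lf ε n) * V n) < δ / 3 + δ / 3 := by
    have a1 : 4 * |t| ^ 3 * ε * V n ≤ 4 * |t| ^ 3 * ε * 2 :=
      mul_le_mul_of_nonneg_left h1.le (by positivity)
    have a2 : (ε ^ 2 + Lf ε n) * V n ≤ (ε ^ 2 + Lf ε n) * 2 :=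
      mul_le_mul_of_nonneg_left h1.le (by positivity)
    have a3 : (t ^ 2 / 2) ^ 2 * ((ε ^ 2 + Lf ε n) * V n) ≤
        (t ^ 2 / 2) ^ 2 * ((ε ^ 2 + Lf ε n) * 2) :=
      mul_le_mul_of_nonneg_left a2 (sq_nonneg _)
    have a4 : ε ^ 2 ≤ ε := by nlinarith
    have a5 : (t ^ 2 / 2) ^ 2 * ε ^ 2 ≤ (t ^ 2 / 2) ^ 2 * ε :=
      mul_le_mul_of_nonneg_left a4 (sq_nonneg _)
    nlinarith
  calc ‖∏ i ∈ Finset.range (K n), charFun (P.map (X n i)) t -
        ((Real.exp (-(t ^ 2 / 2)) : ℝ) : ℂ)‖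
      ≤ ‖∏ i ∈ Finset.range (K n), charFun (P.map (X n i)) t -
        ((Real.exp (-(t ^ 2 / 2) * V n) : ℝ) : ℂ)‖ +
        ‖((Real.exp (-(t ^ 2 / 2) * V n) : ℝ) : ℂ) - ((Real.exp (-(t ^ 2 / 2)) : ℝ) : ℂ)‖ := by
        refine le_trans (le_of_eq ?_) (norm_add_le _ _)
        congr 1
        ring
    _ < δ := by linarith

end Pool.Agent.H62.QC
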